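import Pool.Agent.Lib_helper14.TWP.Quad
import Pool.Agent.Lib_helper14.TWP.Lim

/-!
# Two Diophantine properties: the difference `n₁ - n₂`

For 100 percent of the positive integers `N` no four distinct non-zero integers (a fortiori no
five) have both properties `D(n)` and `D(n + N)` for an integer `n`. This is deduced from the
statement that for every cofactor `m` at most `3 d(m)^6` of the products `p m`, `p` a prime not
dividing `m`, are differences of this kind.
-/

set_option autoImplicit false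

namespace Pool.Agent.Results.MP_df6280_nt.AlmostAllDifferences

open Filter Topology

/-- `a 0, …, a (k - 1)` are distinct non-zero integers which form a `D(n)`-`k`-tuple. -/
def IsTuple {k : ℕ} (a : Fin k → ℤ) (n : ℤ) : Prop :=
  Function.Injective a ∧ (∀ i, a i ≠ 0) ∧ ∀ i j, i ≠ j → IsSquare (a i * a j + n)

/-- `N` is a difference: for some integer `n` there are four distinct non-zero integers which are
at the same time a `D(n)`-quadruple and a `D(n + N)`-quadruple. -/
def IsDifference (N : ℕ) : Prop :=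
  ∃ (a : Fin 4 → ℤ) (n : ℤ), IsTuple a n ∧ IsTuple a (n + N)

theorem result :
    Tendsto (fun X : ℕ => (({N : ℕ | 1 ≤ N ∧ N ≤ X ∧ IsDifference N}.ncard : ℕ) : ℝ) / X) atTop (𝓝 0) ∧
    (∀ m : ℕ, {p : ℕ | p.Prime ∧ ¬ p ∣ m ∧ IsDifference (p * m)}.Finite ∧
      {p : ℕ | p.Prime ∧ ¬ p ∣ m ∧ IsDifference (p * m)}.ncard ≤ 3 * m.divisors.card ^ 6) := by
  classical
  have two : ∀ (a : Fin 4 → ℤ) (n₁ n₂ : ℤ), IsTuple a n₁ → IsTuple a n₂ → TWP.Two a n₁ n₂ :=
    fun a n₁ n₂ h1 h2 => ⟨h1.1, h1.2.1, fun i j hij => ⟨h1.2.2 i j hij, h2.2.2 i j hij⟩⟩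
  have hA : ∀ (m : ℕ) (S : Finset ℕ),
      (∀ p ∈ S, p.Prime ∧ ¬ p ∣ m ∧ p * m ∈ {N | IsDifference N}) → S.card ≤ 3 * m.divisors.card ^ 6 := by
    intro m S hS
    refine TWP.card_primes m S fun p hp => ?_
    obtain ⟨h1, h2, a, n, h3, h4⟩ := hS p hp
    exact ⟨h1, h2, a, n + ((p * m : ℕ) : ℤ), n, two a _ _ h4 h3, by push_cast; ring⟩
  refine ⟨?_, fun m => ?_⟩
  · have h := TWP.density_zero {N | IsDifference N} hA
    refine h.congr fun X => ?_
    congr 2
    rw [← Set.ncard_coe_finset]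
    congr 1
    ext N
    simp only [Finset.coe_filter, Finset.mem_Ioc, Set.mem_ofPred_eq]
    constructor
    · rintro ⟨⟨h1, h2⟩, h3⟩; exact ⟨h1, h2, h3⟩
    · rintro ⟨h1, h2, h3⟩; exact ⟨⟨h1, h2⟩, h3⟩
  · have hfin : {p : ℕ | p.Prime ∧ ¬ p ∣ m ∧ IsDifference (p * m)}.Finite := by
      by_contra hinf
      obtain ⟨S, hS, hcard⟩ := (Set.not_finite.1 hinf : Set.Infinite _).exists_subset_card_eq (3 * m.divisors.card ^ 6 + 1)
      have := hA m S fun p hp => hS hp
      omega
    refine ⟨hfin, ?_⟩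
    rw [Set.ncard_eq_toFinset_card _ hfin]
    exact hA m hfin.toFinset fun p hp => hfin.mem_toFinset.1 hp

end Pool.Agent.Results.MP_df6280_nt.AlmostAllDifferences
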