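import Mathlib
import Pool.Agent.Lib_helper39.TB.TDN

/-!
# The Liouville function along `n² + 1` with a divisor weight, at almost all scales

For real numbers `0 < α < β` let `W(n)` be the number of the divisors `d` of `n² + 1` with
`α n < d ≤ β n`. There is one set `E` of positive integers, of logarithmic density `0`, such that
for all `0 < α < β` the average `(1 / x) ∑_{n ≤ x} λ(n² + 1) W(n)` tends to `0` as `x → ∞`
outside of `E`.
-/

namespace Pool.Agent.Results.MP_892e4c_nt.AlmostAllScalesDivisorWeight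

open Filter Topology

/-- The Liouville function extended to the integers: `λ(0) = 0` and, for `m ≠ 0`,
`λ(m) = (-1)^Ω(|m|)`, where `Ω` counts prime factors with multiplicity. -/
def liouville (m : ℤ) : ℤ :=
  if m = 0 then 0 else (-1) ^ (ArithmeticFunction.cardFactors m.natAbs)

open Classical in
/-- The number of the divisors `d` of `n² + 1` with `α n < d ≤ β n`. -/
noncomputable def W (α β : ℝ) (n : ℕ) : ℕ :=
  ((n ^ 2 + 1).divisors.filter (fun d : ℕ => α * n < (d : ℝ) ∧ (d : ℝ) ≤ β * n)).card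

open Classical in
/-- The set `E` has logarithmic density zero: `(1 / log X) ∑_{x ≤ X, x ∈ E} 1 / x` tends
to `0`. -/
def LogDensityZero (E : Set ℕ) : Prop :=
  Tendsto (fun X : ℕ => (1 / Real.log X) * ∑ x ∈ (Finset.Icc 1 X).filter (fun x => x ∈ E),
    1 / (x : ℝ)) atTop (𝓝 0)

/-- There is a set `E` of logarithmic density zero such that for all `0 < α < β` the average
`(1 / x) ∑_{n ≤ x} λ(n² + 1) W(n)` tends to `0` as `x → ∞` outside of `E`. -/
theorem result : ∃ E : Set ℕ, LogDensityZero E ∧ ∀ α β : ℝ, 0 < α → α < β →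
    Tendsto (fun x : ℕ => (1 / (x : ℝ)) * ∑ n ∈ Finset.Icc 1 x,
      (liouville ((n : ℤ) ^ 2 + 1) : ℝ) * (W α β n : ℝ)) (atTop ⊓ 𝓟 Eᶜ) (𝓝 0) := by
  obtain ⟨E, hE, h⟩ := Pool.Agent.T2.almost_all_scales
  refine ⟨E, hE, fun α β hα hβ => ?_⟩
  have hW : ∀ n : ℕ, (liouville ((n : ℤ) ^ 2 + 1) : ℝ) * (W α β n : ℝ) =
      Pool.Agent.T2.lam (n ^ 2 + 1) * Pool.Agent.T2.Wdiv α β n := by
    intro n
    have h1 : (liouville ((n : ℤ) ^ 2 + 1) : ℝ) = Pool.Agent.T2.lam (n ^ 2 + 1) := by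
      unfold liouville Pool.Agent.T2.lam
      have h2 : ((n : ℤ) ^ 2 + 1) ≠ 0 := by positivity
      have h3 : ((n : ℤ) ^ 2 + 1).natAbs = n ^ 2 + 1 := by
        have h4 : ((n : ℤ) ^ 2 + 1) = ((n ^ 2 + 1 : ℕ) : ℤ) := by push_cast; ring
        rw [h4, Int.natAbs_natCast]
      rw [if_neg h2, if_neg (by omega), h3]
      push_cast
      rfl
    rw [h1]
    rfl
  rw [Metric.tendsto_nhds]
  intro ε hε
  obtain ⟨x₀, hx₀⟩ := h α β hα hβ (ε / 2) (by positivity)
  rw [Filter.eventually_inf_principal]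
  filter_upwards [eventually_ge_atTop (max x₀ 1)] with x hx hxE
  have hx1 : 1 ≤ x := le_trans (le_max_right _ _) hx
  have hx0 : (0 : ℝ) < x := by exact_mod_cast hx1
  have h1 := hx₀ x (le_trans (le_max_left _ _) hx) hxE
  have h2 : ∑ n ∈ Finset.Icc 1 x, (liouville ((n : ℤ) ^ 2 + 1) : ℝ) * (W α β n : ℝ) =
      Pool.Agent.T2.SW α β x := Finset.sum_congr rfl fun n _ => hW n
  rw [h2, Real.dist_eq, sub_zero, abs_mul, abs_of_pos (by positivity : 0 < 1 / (x : ℝ)),
    one_div_mul_eq_div, div_lt_iff₀ hx0]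
  have h3 : ε / 2 * x < ε * x := by nlinarith
  linarith

end Pool.Agent.Results.MP_892e4c_nt.AlmostAllScalesDivisorWeight
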