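import Mathlib
import Pool.Agent.Lib_helper10.T2F.ZFI

/-!
# Logarithmic averages of the Liouville function along `n² + 1` with a divisor weight

For real numbers `0 < α < β` let `W(n)` be the number of the divisors `d` of `n² + 1` with
`α n < d ≤ β n`. Then `(1 / log x) ∑_{n ≤ x} λ(n² + 1) W(n) / n` tends to `0`.
-/

namespace Pool.Agent.Results.MP_892e4c_nt.LogAverageDivisorWeight

open Filter Topology

/-- The Liouville function extended to the integers: `λ(0) = 0` and, for `m ≠ 0`,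
`λ(m) = (-1)^Ω(|m|)`, where `Ω` counts prime factors with multiplicity. -/
def liouville (m : ℤ) : ℤ :=
  if m = 0 then 0 else (-1) ^ (ArithmeticFunction.cardFactors m.natAbs)

open Classical in
/-- The number of the divisors `d` of `n² + 1` with `α n < d ≤ β n`. -/
noncomputable def W (α β : ℝ) (n : ℕ) : ℕ :=
  ((n ^ 2 + 1).divisors.filter (fun d : ℕ => α * n < (d : ℝ) ∧ (d : ℝ) ≤ β * n)).card

/-- The logarithmic average of `λ(n² + 1) W(n)` is `0`. -/
theorem result (α β : ℝ) (hα : 0 < α) (hβ : α < β) :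
    Tendsto (fun x : ℕ => (1 / Real.log x) * ∑ n ∈ Finset.Icc 1 x,
      (liouville ((n : ℤ) ^ 2 + 1) : ℝ) * (W α β n : ℝ) / (n : ℝ)) atTop (𝓝 0) := by
  refine (Pool.Agent.T2.t2_final α β hα hβ).congr fun x => ?_
  congr 1
  refine Finset.sum_congr rfl fun n _ => ?_
  have h1 : (liouville ((n : ℤ) ^ 2 + 1) : ℝ) = Pool.Agent.T2.lam (n ^ 2 + 1) := by
    unfold liouville Pool.Agent.T2.lam
    have h2 : ((n : ℤ) ^ 2 + 1) ≠ 0 := by positivity
    have h3 : ((n : ℤ) ^ 2 + 1).natAbs = n ^ 2 + 1 := by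
      have h4 : ((n : ℤ) ^ 2 + 1) = ((n ^ 2 + 1 : ℕ) : ℤ) := by push_cast; ring
      rw [h4, Int.natAbs_natCast]
    rw [if_neg h2, if_neg (by omega), h3]
    push_cast
    rfl
  rw [h1]
  rfl

end Pool.Agent.Results.MP_892e4c_nt.LogAverageDivisorWeight
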