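import Mathlib
import Pool.Agent.Lib_helper96.Chowla.Final
import Pool.Agent.Lib_helper39.MQX.MIN
import Pool.Agent.Lib_helper39.MQX.PLU

/-!
# Completely multiplicative functions at the values of a monic irreducible quadratic polynomial

There is an absolute constant `A` such that for every monic irreducible quadratic polynomial `f`
with integer coefficients and every completely multiplicative function `h` with values `1` and
`-1`, the value `1` is taken by `h(f(n))` for at least `x / (log x)^A` integers `1 ≤ n ≤ x` once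
`x` is large, and so is the value `-1` if it is taken at least once. In particular both values are
taken by the Liouville function.
-/

namespace Pool.Agent.Results.MP_892e4c_nt.MonicQuadraticsLog

open Polynomial

/-- The Liouville function extended to the integers: `λ(0) = 0` and, for `m ≠ 0`,
`λ(m) = (-1)^Ω(|m|)`, where `Ω` counts prime factors with multiplicity. -/
def liouville (m : ℤ) : ℤ :=
  if m = 0 then 0 else (-1) ^ (ArithmeticFunction.cardFactors m.natAbs)

/-- Completely multiplicative functions on the positive integers with values `1` and `-1`. -/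
structure SignFunction (h : ℕ → ℤ) : Prop where
  values : ∀ m : ℕ, 1 ≤ m → h m = 1 ∨ h m = -1
  mul : ∀ m n : ℕ, 1 ≤ m → 1 ≤ n → h (m * n) = h m * h n

theorem sgn_liouville : SignFunction (fun n => liouville n) := by
  constructor
  · intro m hm
    have h0 : (m : ℤ) ≠ 0 := by exact_mod_cast (by omega : m ≠ 0)
    simp only [liouville, if_neg h0, Int.natAbs_natCast]
    exact neg_one_pow_eq_or ℤ _
  · intro m n hm hn
    have h0 : (m : ℤ) ≠ 0 := by exact_mod_cast (by omega : m ≠ 0)
    have h1 : (n : ℤ) ≠ 0 := by exact_mod_cast (by omega : n ≠ 0)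
    have h2 : ((m * n : ℕ) : ℤ) ≠ 0 := by
      push_cast
      exact mul_ne_zero h0 h1
    simp only [liouville, if_neg h0, if_neg h1, if_neg h2, Int.natAbs_natCast]
    rw [ArithmeticFunction.cardFactors_mul (by omega) (by omega), pow_add]

theorem coeffs {f : ℤ[X]} (hmonic : f.Monic) (hdeg : f.natDegree = 2) :
    f = X ^ 2 + C (f.coeff 1) * X + C (f.coeff 0) := by
  have h2 : f.coeff 2 = 1 := by rw [← hdeg]; exact hmonic.coeff_natDegree
  conv_lhs => rw [f.as_sum_range_C_mul_X_pow, hdeg]
  rw [Finset.sum_range_succ, Finset.sum_range_succ, Finset.sum_range_one, h2]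
  simp only [map_one]
  ring

theorem not_square {f : ℤ[X]} (hmonic : f.Monic) (hdeg : f.natDegree = 2) (hirr : Irreducible f) :
    ¬ IsSquare (MQ.dsc (f.coeff 1) (f.coeff 0)) := by
  rintro ⟨k, hk⟩
  unfold MQ.dsc at hk
  set b := f.coeff 1 with hb
  set c := f.coeff 0 with hc
  have hpar : Even (b - k) := by
    have h1 : Even (b ^ 2 - k * k) := ⟨2 * c, by linarith⟩
    have h2 : b ^ 2 - k * k = (b - k) * (b + k) := by ring
    rw [h2, Int.even_mul] at h1
    rcases h1 with h1 | h1
    · exact h1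
    · have : b - k = (b + k) - 2 * k := by ring
      rw [this]
      exact h1.sub (even_two_mul k)
  obtain ⟨s, hs⟩ := hpar
  have hbk : b = k + 2 * s := by linarith
  have hcs : c = s * (s + k) := by
    rw [hbk] at hk
    nlinarith
  have hf := coeffs hmonic hdeg
  rw [← hb, ← hc] at hf
  have hfac : f = (X + C s) * (X + C (s + k)) := by
    rw [hf, hbk, hcs]
    simp only [map_add, map_mul]
    have : (C (2 : ℤ) : ℤ[X]) = 2 := by simp
    rw [this]
    ring
  have hu := hirr.isUnit_or_isUnit hfac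
  have hd : ∀ t : ℤ, ¬ IsUnit (X + C t) := by
    intro t ht
    have := Polynomial.natDegree_eq_zero_of_isUnit ht
    rw [Polynomial.natDegree_X_add_C] at this
    exact one_ne_zero this
  rcases hu with hu | hu
  · exact hd _ hu
  · exact hd _ hu

/-- There is an absolute constant `A` such that for every monic irreducible quadratic polynomial
`f` with integer coefficients: (a) if `h` is completely multiplicative with values `1` and `-1`
then for all large `x` at least `x / (log x)^A` of the integers `1 ≤ n ≤ x` satisfy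
`h(|f(n)|) = 1`, and if `h(f(n)) = -1` for at least one integer `n` with `f(n) > 0` then at
least `x / (log x)^A` of them satisfy `h(|f(n)|) = -1`; (b) for the Liouville function both
values are taken for at least `x / (log x)^A` of the integers `1 ≤ n ≤ x`. -/
theorem result : ∃ A : ℝ, 0 < A ∧ ∀ f : ℤ[X], f.Monic → f.natDegree = 2 → Irreducible f →
    (∀ h : ℕ → ℤ, SignFunction h → ∃ x₀ : ℝ, ∀ x : ℝ, x₀ ≤ x →
      x / Real.log x ^ A ≤ ((Finset.Icc 1 ⌊x⌋₊).filter
        (fun n : ℕ => h (f.eval (n : ℤ)).natAbs = 1)).card ∧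
      ((∃ n : ℤ, 0 < f.eval n ∧ h (f.eval n).natAbs = -1) →
        x / Real.log x ^ A ≤ ((Finset.Icc 1 ⌊x⌋₊).filter
          (fun n : ℕ => h (f.eval (n : ℤ)).natAbs = -1)).card)) ∧
    ∃ x₀ : ℝ, ∀ x : ℝ, x₀ ≤ x →
      x / Real.log x ^ A ≤ ((Finset.Icc 1 ⌊x⌋₊).filter
        (fun n : ℕ => liouville (f.eval (n : ℤ)) = 1)).card ∧
      x / Real.log x ^ A ≤ ((Finset.Icc 1 ⌊x⌋₊).filter
        (fun n : ℕ => liouville (f.eval (n : ℤ)) = -1)).card := by
  obtain ⟨A₁, hA₁, h1⟩ := MQ.minus_sign
  obtain ⟨A₂, hA₂, h2⟩ := MQ.plus_sign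
  refine ⟨max A₁ A₂, lt_max_of_lt_left hA₁, ?_⟩
  intro f hmonic hdeg hirr
  have hns := not_square hmonic hdeg hirr
  have hf := coeffs hmonic hdeg
  set b := f.coeff 1 with hb
  set c := f.coeff 0 with hc
  have heval : ∀ n : ℤ, f.eval n = MQ.fv b c n := by
    intro n
    conv_lhs => rw [hf]
    simp [MQ.fv]
  have hle : ∀ A' : ℝ, A' ≤ max A₁ A₂ → ∀ x : ℝ, 3 ≤ x →
      x / Real.log x ^ (max A₁ A₂) ≤ x / Real.log x ^ A' := by
    intro A' hA' x hx
    have hl : 1 ≤ Real.log x := by
      rw [Real.le_log_iff_exp_le (by linarith)]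
      linarith [Real.exp_one_lt_d9]
    exact div_le_div_of_nonneg_left (by linarith) (Real.rpow_pos_of_pos (by linarith) _)
      (Real.rpow_le_rpow_of_exponent_le hl hA')
  have key : ∀ h : ℕ → ℤ, SignFunction h → ∃ x₀ : ℝ, ∀ x : ℝ, x₀ ≤ x →
      x / Real.log x ^ (max A₁ A₂) ≤ ((Finset.Icc 1 ⌊x⌋₊).filter
        (fun n : ℕ => h (f.eval (n : ℤ)).natAbs = 1)).card ∧
      ((∃ n : ℤ, 0 < f.eval n ∧ h (f.eval n).natAbs = -1) →
        x / Real.log x ^ (max A₁ A₂) ≤ ((Finset.Icc 1 ⌊x⌋₊).filter
          (fun n : ℕ => h (f.eval (n : ℤ)).natAbs = -1)).card) := by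
    intro h hh
    have hS : MQ.Sgn h := ⟨hh.values, hh.mul⟩
    obtain ⟨x₂, hx₂⟩ := h2 b c hns h hS
    by_cases hex : ∃ n : ℤ, 0 < f.eval n ∧ h (f.eval n).natAbs = -1
    · obtain ⟨n, hn1, hn2⟩ := hex
      have hv : ∃ v : MQ.El, 0 < MQ.nm b c v ∧ MQ.gg b c h v = -1 := by
        have e : MQ.nm b c (n, 1) = f.eval n := by
          rw [heval]
          simp [MQ.nm, MQ.fv]
        refine ⟨(n, 1), ?_, ?_⟩
        · rw [e]; exact hn1
        · unfold MQ.gg
          rw [e]; exact hn2
      obtain ⟨x₁, hx₁⟩ := h1 b c hns h hS hv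
      refine ⟨max 3 (max x₁ x₂), fun x hx => ⟨?_, fun _ => ?_⟩⟩
      · simp only [heval]
        exact (hle A₂ (le_max_right _ _) x ((le_max_left _ _).trans hx)).trans
          (hx₂ x ((le_max_right _ _).trans ((le_max_right _ _).trans hx)))
      · simp only [heval]
        exact (hle A₁ (le_max_left _ _) x ((le_max_left _ _).trans hx)).trans
          (hx₁ x ((le_max_left _ _).trans ((le_max_right _ _).trans hx)))
    · refine ⟨max 3 x₂, fun x hx => ⟨?_, fun hc => absurd hc hex⟩⟩
      simp only [heval]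
      exact (hle A₂ (le_max_right _ _) x ((le_max_left _ _).trans hx)).trans
        (hx₂ x ((le_max_right _ _).trans hx))
  refine ⟨key, ?_⟩
  -- the Liouville function takes the value `-1` at a positive value of the polynomial
  have hD : b ^ 2 - 4 * c ≠ 0 := by
    intro h0
    apply hns
    unfold MQ.dsc
    rw [h0]
    exact ⟨0, by ring⟩
  have hmain := Pool.Agent.H96Chowla.both_many b c hD (ε := 1 / 2) (by norm_num)
  have hlio : ∀ m : ℤ, m ≠ 0 → liouville ((m.natAbs : ℕ) : ℤ) = liouville m := by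
    intro m hm
    have h0 : ((m.natAbs : ℕ) : ℤ) ≠ 0 := by
      rw [Int.natCast_natAbs]
      exact abs_ne_zero.mpr hm
    simp only [liouville, if_neg h0, if_neg hm, Int.natAbs_natCast]
  have hne : ∀ n : ℤ, f.eval n ≠ 0 := by
    intro n hn
    apply hns
    rw [heval] at hn
    unfold MQ.fv at hn
    unfold MQ.dsc
    exact ⟨2 * n + b, by linear_combination (-4) * hn⟩
  have hex : ∃ n : ℤ, 0 < f.eval n ∧ liouville (((f.eval n).natAbs : ℕ) : ℤ) = -1 := by
    rw [Filter.eventually_atTop] at hmain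
    obtain ⟨N₀, hN₀⟩ := hmain
    set M : ℕ := |b|.toNat + |c|.toNat + 1 with hM
    obtain ⟨N, hN1, hN2⟩ : ∃ N : ℕ, N₀ ≤ N ∧ M ^ 2 < N := by
      refine ⟨N₀ + M ^ 2 + 1, by omega, by omega⟩
    have h3 := (hN₀ N hN1).2
    have h4 : (M : ℝ) < (N : ℝ) ^ (1 - (1 / 2 : ℝ)) := by
      have : (1 - (1 / 2 : ℝ)) = 1 / 2 := by norm_num
      rw [this, ← Real.sqrt_eq_rpow]
      apply Real.lt_sqrt_of_sq_lt
      exact_mod_cast hN2
    have h5 : (M : ℝ) < (((Finset.Icc 1 N).filter (fun n : ℕ => (if (n : ℤ) ^ 2 + b * n + c = 0 then (0:ℤ) else (-1) ^ (ArithmeticFunction.cardFactors ((n : ℤ) ^ 2 + b * n + c).natAbs)) = -1)).card : ℝ) :=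
      lt_of_lt_of_le h4 h3
    have h6 : M < ((Finset.Icc 1 N).filter (fun n : ℕ => (if (n : ℤ) ^ 2 + b * n + c = 0 then (0:ℤ) else (-1) ^ (ArithmeticFunction.cardFactors ((n : ℤ) ^ 2 + b * n + c).natAbs)) = -1)).card := by
      exact_mod_cast h5
    obtain ⟨n, hn, hnM⟩ : ∃ n ∈ (Finset.Icc 1 N).filter (fun n : ℕ => (if (n : ℤ) ^ 2 + b * n + c = 0 then (0:ℤ) else (-1) ^ (ArithmeticFunction.cardFactors ((n : ℤ) ^ 2 + b * n + c).natAbs)) = -1), M < n := by
      by_contra hcon
      push Not at hcon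
      have hsub : (Finset.Icc 1 N).filter (fun n : ℕ => (if (n : ℤ) ^ 2 + b * n + c = 0 then (0:ℤ) else (-1) ^ (ArithmeticFunction.cardFactors ((n : ℤ) ^ 2 + b * n + c).natAbs)) = -1) ⊆
          Finset.Icc 1 M := by
        intro n hn
        have h7 := hcon n hn
        rw [Finset.mem_filter, Finset.mem_Icc] at hn
        rw [Finset.mem_Icc]
        exact ⟨hn.1.1, h7⟩
      have := Finset.card_le_card hsub
      rw [Nat.card_Icc] at this
      omega
    rw [Finset.mem_filter] at hn
    have hpos : 0 < f.eval (n : ℤ) := by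
      rw [heval]
      unfold MQ.fv
      have h7 : |b| + |c| + 1 < (n : ℤ) := by
        have h8 : (M : ℤ) < n := by exact_mod_cast hnM
        have h9 : (M : ℤ) = |b| + |c| + 1 := by
          rw [hM]
          push_cast
          rw [Int.toNat_of_nonneg (abs_nonneg b), Int.toNat_of_nonneg (abs_nonneg c)]
        omega
      have hb1 := neg_abs_le b
      have hc1 := neg_abs_le c
      have hn1 : (1 : ℤ) ≤ n := by
        have := abs_nonneg b
        have := abs_nonneg c
        omega
      nlinarith [abs_nonneg b, abs_nonneg c]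
    refine ⟨(n : ℤ), hpos, ?_⟩
    rw [hlio _ (hne _), heval]
    exact hn.2
  obtain ⟨x₀, hx₀⟩ := key _ sgn_liouville
  refine ⟨x₀, fun x hx => ?_⟩
  obtain ⟨h3, h4⟩ := hx₀ x hx
  have h5 := h4 hex
  simp only [hlio _ (hne _)] at h3 h5
  exact ⟨h3, h5⟩

end Pool.Agent.Results.MP_892e4c_nt.MonicQuadraticsLog
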