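import Pool.Agent.Lib_helper39.RSA.FINB
import Pool.Agent.Lib_helper39.RCA.DEN
import Pool.Agent.Lib_helper92.SQA.NZJ

/-!
# A positive proportion of critical zeros for almost all real Dirichlet L-functions

Selberg's theorem for the family of real primitive Dirichlet characters, at bounded height, for
almost every individual character and every short interval.  For all `T` and `δ > 0` there is `C`
such that for every `X ≥ 2` and all `0 < H ≤ h`: for all but at most the proportion
`C / (h H log X)` of the real primitive Dirichlet characters `χ` of conductor at most `X`, every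
interval `(x, x + h)` contained in `[-T, T]` and disjoint from `(-δ, δ)` contains more than `h / H`
ordinates of zeros of odd order of `Λ(s, χ)` on the line `Re s = 1/2`, and these are at least the
proportion `h / (C H log X)` of all zeros of `Λ(s, χ)` with ordinate in `(x, x + h)`, counted with
multiplicity.  (Take `H = A / log X` with a large constant `A`.)

Method: mollifier of Selberg of length `X ^ (1/2000)`.  The non-square terms of the mollified
second moment (Poisson summation in the conductor, sign of the quadratic Gauss sum, sums of Jacobi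
symbols) are almost invariant under `(u, u') ↦ (u + τ, u' - τ)`, which moves the critical point
`u = u' = -(log X)/2` to points on both sides of the centre, where the functional equation applies;
the square terms are bounded by a random model, Rankin's trick and Plancherel.  The family contains
all odd `m`; integers `m` which are not squarefree do no harm.

Authors of the blocks (team): helper7, helper8, helper9, helper13, helper14, helper16, helper21,
helper22, helper24, helper30, helper35, helper39, helper47, helper50, helper58, helper70, helper71,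
helper77, helper89, helper90, helper93, helper95; abstract endgame `Lib_helper24/ABS` (helper24),
zero counting (helper92).
-/

namespace Pool.Agent.Lib_helper39.Superseded.RealProportion

open Complex
open scoped ENNReal

/-- `χ` is a real primitive Dirichlet character: primitive with real values. -/
def IsRealPrimitive {q : ℕ} (χ : DirichletCharacter ℂ q) : Prop :=
  χ.IsPrimitive ∧ ∀ a : ZMod q, (χ a).im = 0

/-- The number of `t` with `a < t < b` such that `1/2 + it` is a zero of odd order of `Λ(s, χ)`. -/
noncomputable def oddCritical {q : ℕ} [NeZero q] (χ : DirichletCharacter ℂ q) (a b : ℝ) : ℝ≥0∞ :=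
  ({t : ℝ | a < t ∧ t < b ∧
    Odd (analyticOrderNatAt (DirichletCharacter.completedLFunction χ)
      (1 / 2 + t * I))}.encard : ℝ≥0∞)

/-- The number of all zeros `ρ` of `Λ(s, χ)` with `a < Im ρ < b`, counted with multiplicity. -/
noncomputable def allZeros {q : ℕ} [NeZero q] (χ : DirichletCharacter ℂ q) (a b : ℝ) : ℝ≥0∞ :=
  ∑' ρ : {ρ : ℂ // a < ρ.im ∧ ρ.im < b},
    (analyticOrderNatAt (DirichletCharacter.completedLFunction χ) ρ.1 : ℝ≥0∞)

/-- The number of real primitive characters of conductor at most `X`. -/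
noncomputable def family (X : ℕ) : ℕ :=
  ∑ q ∈ Finset.range X, Nat.card {χ : DirichletCharacter ℂ (q + 1) // IsRealPrimitive χ}

/-- `χ` fails on `[-T, T] \ (-δ, δ)`: some interval of length `h` there has at most `h / H` odd
order critical zeros, or fewer than the proportion `p` of its zeros. -/
def Fails (T δ h H p : ℝ) {q : ℕ} [NeZero q] (χ : DirichletCharacter ℂ q) : Prop :=
  ∃ x : ℝ, -T ≤ x ∧ x + h ≤ T ∧ (δ ≤ x ∨ x + h ≤ -δ) ∧
    (oddCritical χ x (x + h) ≤ ENNReal.ofReal (h / H) ∨
      oddCritical χ x (x + h) < ENNReal.ofReal p * allZeros χ x (x + h))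

/-- The number of exceptional real primitive characters of conductor at most `X`. -/
noncomputable def exceptions (T δ h H p : ℝ) (X : ℕ) : ℕ :=
  ∑ q ∈ Finset.range X, Nat.card {χ : DirichletCharacter ℂ (q + 1) //
    IsRealPrimitive χ ∧ Fails T δ h H p χ}

theorem isQuadratic_iff {q : ℕ} [NeZero q] (χ : DirichletCharacter ℂ q) :
    (∀ a : ZMod q, (χ a).im = 0) ↔ MulChar.IsQuadratic χ := by
  constructor
  · intro h a
    by_cases ha : IsUnit a
    · right
      have h1 : ‖χ a‖ = 1 := by
        obtain ⟨u, rfl⟩ := ha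
        exact DirichletCharacter.unit_norm_eq_one χ u
      have h2 : χ a = ((χ a).re : ℂ) := Complex.ext rfl (by simpa using h a)
      rw [h2, Complex.norm_real, Real.norm_eq_abs] at h1
      rcases (abs_eq (by norm_num : (0 : ℝ) ≤ 1)).mp h1 with h3 | h3
      · left; rw [h2, h3]; simp
      · right; rw [h2, h3]; simp
    · left
      exact MulChar.map_nonunit χ ha
  · intro h a
    rcases h a with h1 | h1 | h1 <;> rw [h1] <;> simp

theorem fails_to {T δ h H C C2 : ℝ} (hC : 0 < C) (hC2 : C2 ≤ C) (hH : 0 < H) (hHh : H ≤ h)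
    {X q : ℕ} [NeZero q] (hq : 2 ≤ q) (hqX : q ≤ X) (χ : DirichletCharacter ℂ q)
    (hall0 : ∑' ρ : {ρ : ℂ // |ρ.im| ≤ T},
        (analyticOrderNatAt (DirichletCharacter.completedLFunction χ) ρ.1 : ENNReal) ≤
          ENNReal.ofReal (C2 * Real.log q))
    (hf : Fails T δ h H (h / (C * H * Real.log X)) χ) :
    Pool.Agent.RSE.BadT T δ h ⌊h / H⌋₊ χ := by
  have hh : 0 < h := hH.trans_le hHh
  have hlogq : 0 < Real.log q := Real.log_pos (by exact_mod_cast hq)
  have hlogqX : Real.log q ≤ Real.log X :=
    Real.log_le_log (by positivity) (by exact_mod_cast hqX)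
  have hlogX : 0 < Real.log X := hlogq.trans_le hlogqX
  obtain ⟨x, hx, hx', hxd, hbad⟩ := hf
  refine ⟨x, hx, hx', hxd, ?_⟩
  by_contra hcon
  push Not at hcon
  have hSeq : Pool.Agent.RSE.oddS χ ∩ Set.Ioo x (x + h) =
      {t : ℝ | x < t ∧ t < x + h ∧
        Odd (analyticOrderNatAt (DirichletCharacter.completedLFunction χ)
          (1 / 2 + t * I))} := by
    ext t
    constructor
    · rintro ⟨h3, h4, h5⟩; exact ⟨h4, h5, h3⟩
    · rintro ⟨h3, h4, h5⟩; exact ⟨h5, h3, h4⟩
  rw [hSeq] at hcon
  set S : Set ℝ := {t : ℝ | x < t ∧ t < x + h ∧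
        Odd (analyticOrderNatAt (DirichletCharacter.completedLFunction χ)
          (1 / 2 + t * I))} with hS
  have hodd : oddCritical χ x (x + h) = (S.encard : ℝ≥0∞) := rfl
  have hcount : ((⌊h / H⌋₊ : ℕ) : ℝ≥0∞) + 1 ≤ (S.encard : ℝ≥0∞) := by
    have e1 : ((⌊h / H⌋₊ : ℕ) : ℕ∞) + 1 ≤ S.encard := Order.add_one_le_of_lt hcon
    have e2 := ENat.toENNReal_le.mpr e1
    simpa using e2
  have hgt : ENNReal.ofReal (h / H) < (S.encard : ℝ≥0∞) := by
    refine lt_of_lt_of_le ?_ hcount
    have e3 : h / H < (⌊h / H⌋₊ : ℝ) + 1 := Nat.lt_floor_add_one _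
    have e4 : ENNReal.ofReal (h / H) < ENNReal.ofReal ((⌊h / H⌋₊ : ℝ) + 1) :=
      (ENNReal.ofReal_lt_ofReal_iff (by positivity)).mpr e3
    refine e4.trans_le (le_of_eq ?_)
    rw [ENNReal.ofReal_add (by positivity) (by norm_num), ENNReal.ofReal_natCast,
      ENNReal.ofReal_one]
  rcases hbad with hbad | hbad
  · rw [hodd] at hbad
    exact absurd hgt (not_lt.mpr hbad)
  · refine absurd hbad (not_lt.mpr ?_)
    rw [hodd]
    have hall : allZeros χ x (x + h) ≤ ENNReal.ofReal (C2 * Real.log q) := by
      refine le_trans ?_ hall0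
      refine ENNReal.tsum_comp_le_tsum_of_injective
        (f := fun ρ : {ρ : ℂ // x < ρ.im ∧ ρ.im < x + h} =>
          (⟨ρ.1, abs_le.mpr ⟨by linarith [ρ.2.1], by linarith [ρ.2.2]⟩⟩ :
            {ρ : ℂ // |ρ.im| ≤ T})) ?_
        (fun ρ : {ρ : ℂ // |ρ.im| ≤ T} =>
          (analyticOrderNatAt (DirichletCharacter.completedLFunction χ) ρ.1 : ℝ≥0∞))
      intro a b hab
      exact Subtype.ext (congrArg (fun z : {ρ : ℂ // |ρ.im| ≤ T} => z.1) hab)
    refine le_trans (mul_le_mul_right hall _) ?_
    refine le_trans ?_ hgt.le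
    rw [← ENNReal.ofReal_mul (by positivity)]
    apply ENNReal.ofReal_le_ofReal
    rw [div_mul_eq_mul_div, div_le_div_iff₀ (by positivity) hH]
    have e1 : C2 * Real.log q ≤ C * Real.log X :=
      (mul_le_mul_of_nonneg_right hC2 hlogq.le).trans (mul_le_mul_of_nonneg_left hlogqX hC.le)
    have e2 : 0 ≤ h * H := by positivity
    calc h * (C2 * Real.log q) * H = h * H * (C2 * Real.log q) := by ring
      _ ≤ h * H * (C * Real.log X) := mul_le_mul_of_nonneg_left e1 e2
      _ = h * (C * H * Real.log X) := by ring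

theorem card_mod_one (P : DirichletCharacter ℂ (0 + 1) → Prop) :
    Nat.card {χ : DirichletCharacter ℂ (0 + 1) // P χ} ≤ 1 := by
  have : Subsingleton (DirichletCharacter ℂ (0 + 1)) := by
    refine ⟨fun a b => ?_⟩
    rw [DirichletCharacter.level_one a, DirichletCharacter.level_one b]
  have : Subsingleton {χ : DirichletCharacter ℂ (0 + 1) // P χ} := inferInstance
  exact Finite.card_le_one_iff_subsingleton.mpr this

/-- Selberg's theorem for real characters. -/
theorem result (T δ : ℝ) (hδ : 0 < δ) : ∃ C : ℝ, 0 < C ∧ ∀ (X : ℕ) (h H : ℝ), 2 ≤ X →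
    0 < H → H ≤ h →
    (exceptions T δ h H (h / (C * H * Real.log X)) X : ℝ) ≤
      C / (h * H * Real.log X) * family X := by
  obtain ⟨c, hc, hden⟩ := Pool.Agent.RC.den
  obtain ⟨C1, hC1, h1⟩ := Pool.Agent.RSE.count_all T δ hδ
  obtain ⟨C2, hC2, h2⟩ := Pool.Agent.SQ.zeros_le T
  have hC12 : 0 < (C1 + T ^ 2) / c := by positivity
  refine ⟨(C1 + T ^ 2) / c + C2, by positivity, fun X h H hX hH hHh => ?_⟩
  set C : ℝ := (C1 + T ^ 2) / c + C2 with hCdef
  have hC : 0 < C := by positivity
  have hCC2 : C2 ≤ C := by linarith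
  have hh : 0 < h := hH.trans_le hHh
  have hXR : (2 : ℝ) ≤ X := by exact_mod_cast hX
  have hlogX : 0 < Real.log X := Real.log_pos (by linarith)
  have hfam : c * X ≤ (family X : ℝ) := by
    refine (hden X (by omega)).trans (le_of_eq ?_)
    unfold family
    push_cast
    refine Finset.sum_congr rfl fun q _ => ?_
    congr 1
    refine Nat.card_congr (Equiv.subtypeEquivRight fun χ => ?_)
    unfold IsRealPrimitive
    rw [isQuadratic_iff]
  have hD : 0 < h * H * Real.log X := by positivity
  by_cases hwin : h ≤ T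
  swap
  · have hzero : exceptions T δ h H (h / (C * H * Real.log X)) X = 0 := by
      unfold exceptions
      refine Finset.sum_eq_zero fun q _ => ?_
      rw [Nat.card_eq_zero]
      left
      refine ⟨fun χ => ?_⟩
      obtain ⟨x, hx1, hx2, hx3, _⟩ := χ.2.2
      rcases hx3 with h3 | h3 <;> linarith
    rw [hzero, Nat.cast_zero]
    positivity
  have hterm : ∀ q ∈ Finset.range X,
      (Nat.card {χ : DirichletCharacter ℂ (q + 1) //
        IsRealPrimitive χ ∧ Fails T δ h H (h / (C * H * Real.log X)) χ} : ℝ) ≤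
      (if q = 0 then 1 else 0) + (Nat.card {χ : DirichletCharacter ℂ (q + 1) //
        χ.IsPrimitive ∧ MulChar.IsQuadratic χ ∧
          Pool.Agent.RSE.BadT T δ h ⌊h / H⌋₊ χ} : ℝ) := by
    intro q hq
    have hqX : q + 1 ≤ X := Finset.mem_range.mp hq
    by_cases hq0 : q = 0
    · subst hq0
      rw [if_pos rfl]
      have := card_mod_one (fun χ => IsRealPrimitive χ ∧
        Fails T δ h H (h / (C * H * Real.log X)) χ)
      have h3 : (Nat.card {χ : DirichletCharacter ℂ (0 + 1) //
        IsRealPrimitive χ ∧ Fails T δ h H (h / (C * H * Real.log X)) χ} : ℝ) ≤ 1 := by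
        exact_mod_cast this
      have h4 : (0 : ℝ) ≤ (Nat.card {χ : DirichletCharacter ℂ (0 + 1) //
        χ.IsPrimitive ∧ MulChar.IsQuadratic χ ∧
          Pool.Agent.RSE.BadT T δ h ⌊h / H⌋₊ χ} : ℝ) := Nat.cast_nonneg _
      linarith
    · rw [if_neg hq0, zero_add]
      have hle : Nat.card {χ : DirichletCharacter ℂ (q + 1) //
          IsRealPrimitive χ ∧ Fails T δ h H (h / (C * H * Real.log X)) χ} ≤
          Nat.card {χ : DirichletCharacter ℂ (q + 1) //
          χ.IsPrimitive ∧ MulChar.IsQuadratic χ ∧ Pool.Agent.RSE.BadT T δ h ⌊h / H⌋₊ χ} := by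
        refine Nat.card_le_card_of_injective (fun χ => ⟨χ.1, χ.2.1.1,
          (isQuadratic_iff χ.1).mp χ.2.1.2, fails_to hC hCC2 hH hHh (by omega) hqX χ.1
            (h2 (q + 1) (by omega) χ.1 χ.2.1.1) χ.2.2⟩) ?_
        intro a b hab
        have e := congrArg (fun z : {χ : DirichletCharacter ℂ (q + 1) //
          χ.IsPrimitive ∧ MulChar.IsQuadratic χ ∧
            Pool.Agent.RSE.BadT T δ h ⌊h / H⌋₊ χ} => z.1) hab
        exact Subtype.ext e
      exact_mod_cast hle
  have hsum : (exceptions T δ h H (h / (C * H * Real.log X)) X : ℝ) ≤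
      1 + C1 * X / (h * H * Real.log X) := by
    unfold exceptions
    push_cast
    refine (Finset.sum_le_sum hterm).trans ?_
    rw [Finset.sum_add_distrib]
    refine add_le_add ?_ (h1 X h H hX hH hHh)
    rw [Finset.sum_ite_eq' (Finset.range X) 0 (fun _ => (1 : ℝ))]
    split_ifs <;> norm_num
  have hone : 1 ≤ T ^ 2 * X / (h * H * Real.log X) := by
    rw [le_div_iff₀ hD, one_mul]
    have e1 : Real.log X ≤ X := (Real.log_le_sub_one_of_pos (by linarith)).trans (by linarith)
    have e2 : h * H ≤ T ^ 2 := by nlinarith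
    exact mul_le_mul e2 e1 hlogX.le (sq_nonneg T)
  calc (exceptions T δ h H (h / (C * H * Real.log X)) X : ℝ)
      ≤ T ^ 2 * X / (h * H * Real.log X) + C1 * X / (h * H * Real.log X) :=
        hsum.trans (add_le_add_left hone _)
    _ = (C1 + T ^ 2) / c / (h * H * Real.log X) * (c * X) := by
        field_simp
        ring
    _ ≤ (C1 + T ^ 2) / c / (h * H * Real.log X) * family X :=
        mul_le_mul_of_nonneg_left hfam (by positivity)
    _ ≤ C / (h * H * Real.log X) * family X := by
        apply mul_le_mul_of_nonneg_right _ (Nat.cast_nonneg _)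
        apply div_le_div_of_nonneg_right _ hD.le
        linarith

end Pool.Agent.Lib_helper39.Superseded.RealProportion
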